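import Pool.Agent.H618.LP.Def

/-! # Moduli of norm at least four: a contracting map with many divergent trajectories -/

set_option autoImplicit false

namespace Pool.Agent.H618.LP

open Polynomial

variable {F : Type*} [Field F] {d : F[X]}

/-- the representative of smallest degree -/
noncomputable def rep (d : F[X]) (c : Cls d) : F[X] := Quotient.out c % d

theorem rep_cl (f : F[X]) : rep d (cl d f) = f % d := by
  unfold rep
  have h1 : cl d (Quotient.out (cl d f)) = cl d f := Quotient.out_eq _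
  rw [cl_eq] at h1
  rw [← sub_eq_zero, ← sub_mod, EuclideanDomain.mod_eq_zero]
  exact h1

open Classical in
/-- The map `f ↦ (1 + d ^ 3) (f / d)` if `d` divides `f`, otherwise `f ↦ f / d` (the quotient of the division with
remainder). -/
noncomputable def big (d : F[X]) : GMap d where
  m c := if c = 0 then 1 + d ^ 3 else 1
  r c := if c = 0 then 0 else rep d c
  coprime c := by
    split_ifs
    · exact ⟨1, -d ^ 2, by ring⟩
    · exact isCoprime_one_left
  dvd f := by
    by_cases h : cl d f = 0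
    · rw [if_pos h, if_pos h, sub_zero]
      exact dvd_mul_of_dvd_right (cl_eq_zero.1 h) _
    · rw [if_neg h, if_neg h, one_mul, rep_cl]
      exact ⟨f / d, by rw [sub_eq_iff_eq_add]; exact (EuclideanDomain.div_add_mod f d).symm⟩

theorem big_not_dvd (hd0 : d ≠ 0) {f : F[X]} (h : ¬ d ∣ f) : (big d).T f = f / d := by
  apply T_eq hd0
  have h1 : cl d f ≠ 0 := fun h2 => h (cl_eq_zero.1 h2)
  simp only [big]
  rw [if_neg h1, if_neg h1, one_mul, rep_cl, eq_sub_iff_add_eq]
  exact EuclideanDomain.div_add_mod f d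

theorem big_dvd (hd0 : d ≠ 0) (g : F[X]) : (big d).T (d * g) = (1 + d ^ 3) * g := by
  apply T_eq hd0
  have h1 : cl d (d * g) = 0 := cl_eq_zero.2 (dvd_mul_right _ _)
  simp only [big]
  rw [if_pos h1, if_pos h1]
  ring

theorem big_add (hd0 : d ≠ 0) {a : F[X]} (ha : a ≠ 0) (had : a.degree < d.degree) (g : F[X]) :
    (big d).T (a + d * g) = g := by
  have h1 : ¬ d ∣ a + d * g := by
    intro h
    have h2 : d ∣ a := (dvd_add_left (dvd_mul_right d g)).1 h
    have h3 := degree_le_of_dvd h2 ha
    exact absurd had (not_lt.2 h3)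
  apply T_eq hd0
  have h2 : cl d (a + d * g) ≠ 0 := fun h2 => h1 (cl_eq_zero.1 h2)
  simp only [big]
  rw [if_neg h2, if_neg h2, one_mul, rep_cl, add_mod, (mod_eq_self_iff hd0).2 had,
    EuclideanDomain.mod_eq_zero.2 (dvd_mul_right d g)]
  ring

theorem natDegree_one_add (hd : 0 < d.natDegree) : (1 + d ^ 3).natDegree = 3 * d.natDegree := by
  rw [natDegree_add_eq_right_of_natDegree_lt, natDegree_pow]
  rw [natDegree_pow, natDegree_one]
  omega

theorem big_contracting (hd : 0 < d.natDegree) (h4 : 4 ≤ Nat.card (Cls d)) : (big d).Contracting := by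
  unfold GMap.Contracting
  rw [finsum_eq_single _ (0 : Cls d)]
  · simp only [big, if_true]
    rw [natDegree_one_add hd]
    exact Nat.mul_lt_mul_of_pos_right (by omega) hd
  · intro c hc
    simp only [big]
    rw [if_neg hc, natDegree_one]

theorem one_add_X_ne : (1 + X : F[X]) ≠ 0 := by
  intro h
  have h2 := congrArg (fun p => coeff p 1) h
  simp [coeff_one] at h2

theorem natDegree_one_add_X : (1 + X : F[X]).natDegree = 1 := by
  rw [add_comm, ← C_1]
  exact natDegree_X_add_C 1

/-- three steps of the map on the polynomials in `d ^ 3` -/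
theorem three (hd : 0 < d.natDegree) {G : F[X]} (hG : 0 < G.natDegree) : ∃ H : F[X], H ≠ 0 ∧
    G.natDegree ≤ H.natDegree + 1 ∧ (big d).T (G.comp (d ^ 3)) = d ^ 2 * H.comp (d ^ 3) ∧
    (big d).T (d ^ 2 * H.comp (d ^ 3)) = d * ((1 + X) * H).comp (d ^ 3) ∧
    (big d).T (d * ((1 + X) * H).comp (d ^ 3)) = ((1 + X) ^ 2 * H).comp (d ^ 3) := by
  have hd0 : d ≠ 0 := by rintro rfl; simp at hd
  have hG1 : G.divX.natDegree = G.natDegree - 1 := natDegree_divX_eq_natDegree_tsub_one
  have hG0 : G.divX ≠ 0 := by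
    intro h
    rw [divX_eq_zero_iff] at h
    rw [h, natDegree_C] at hG
    exact lt_irrefl _ hG
  have hdec : G.comp (d ^ 3) = C (G.coeff 0) + d * (d ^ 2 * G.divX.comp (d ^ 3)) := by
    conv_lhs => rw [← divX_mul_X_add G]
    rw [add_comp, mul_comp, X_comp, C_comp]
    ring
  have hstep : ∀ H : F[X], (big d).T (d ^ 2 * H.comp (d ^ 3)) = d * ((1 + X) * H).comp (d ^ 3) ∧
      (big d).T (d * ((1 + X) * H).comp (d ^ 3)) = ((1 + X) ^ 2 * H).comp (d ^ 3) := by
    intro H
    constructor
    · have e : d ^ 2 * H.comp (d ^ 3) = d * (d * H.comp (d ^ 3)) := by ring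
      rw [e, big_dvd hd0, mul_comp, add_comp, one_comp, X_comp]
      ring
    · rw [big_dvd hd0, mul_comp, mul_comp, pow_comp, add_comp, one_comp, X_comp]
      ring
  by_cases hc : G.coeff 0 = 0
  · refine ⟨(1 + X) * G.divX, ?_, ?_, ?_, (hstep _).1, (hstep _).2⟩
    · exact mul_ne_zero one_add_X_ne hG0
    · rw [natDegree_mul one_add_X_ne hG0]
      omega
    · rw [hdec, hc, map_zero, zero_add, big_dvd hd0, mul_comp, add_comp, one_comp, X_comp]
      ring
  · refine ⟨G.divX, hG0, by omega, ?_, (hstep _).1, (hstep _).2⟩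
    rw [hdec, big_add hd0]
    · rwa [Ne, C_eq_zero]
    · refine lt_of_le_of_lt degree_C_le ?_
      exact natDegree_pos_iff_degree_pos.1 hd

/-- the trajectory of `d ^ 3` -/
theorem traj (hd : 0 < d.natDegree) (s : ℕ) : ∃ G : F[X], s + 1 ≤ G.natDegree ∧
    (big d).T^[3 * s] (d ^ 3) = G.comp (d ^ 3) := by
  induction s with
  | zero => exact ⟨X, by simp, by simp⟩
  | succ s ih =>
    obtain ⟨G, h1, h2⟩ := ih
    obtain ⟨H, h3, h4, h5, h6, h7⟩ := three hd (G := G) (by omega)
    refine ⟨(1 + X) ^ 2 * H, ?_, ?_⟩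
    · rw [natDegree_mul (pow_ne_zero _ one_add_X_ne) h3, natDegree_pow, natDegree_one_add_X]
      omega
    · have e : 3 * (s + 1) = 3 * s + 1 + 1 + 1 := by ring
      rw [e, Function.iterate_succ_apply', Function.iterate_succ_apply', Function.iterate_succ_apply', h2, h5, h6, h7]

theorem traj_growth (hd : 0 < d.natDegree) (t : ℕ) : t * d.natDegree ≤ ((big d).T^[t] (d ^ 3)).natDegree := by
  have hd0 : d ≠ 0 := by rintro rfl; simp at hd
  obtain ⟨s, i, hi, rfl⟩ : ∃ s i, i < 3 ∧ t = 3 * s + i := ⟨t / 3, t % 3, Nat.mod_lt _ (by norm_num), by omega⟩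
  obtain ⟨G, h1, h2⟩ := traj hd s
  obtain ⟨H, h3, h4, h5, h6, h7⟩ := three hd (G := G) (by omega)
  have hd3 : (d ^ 3).natDegree = 3 * d.natDegree := natDegree_pow d 3
  have hne : ∀ P : F[X], P ≠ 0 → P.comp (d ^ 3) ≠ 0 := by
    intro P hP h
    rw [comp_eq_zero_iff] at h
    rcases h with h | h
    · exact hP h
    · have h8 := congrArg natDegree h.2
      rw [natDegree_C, hd3] at h8
      omega
  interval_cases i
  · rw [add_zero, h2, natDegree_comp, hd3]
    calc 3 * s * d.natDegree ≤ G.natDegree * (3 * d.natDegree) := by nlinarith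
      _ = _ := rfl
  · rw [Function.iterate_succ_apply', h2, h5, natDegree_mul (pow_ne_zero _ hd0) (hne _ h3), natDegree_pow, natDegree_comp,
      hd3]
    have h8 : s ≤ H.natDegree := by omega
    nlinarith
  · have e : 3 * s + 2 = 3 * s + 1 + 1 := by ring
    rw [e, Function.iterate_succ_apply', Function.iterate_succ_apply', h2, h5, h6,
      natDegree_mul hd0 (hne _ (mul_ne_zero one_add_X_ne h3)), natDegree_comp, hd3,
      natDegree_mul one_add_X_ne h3, natDegree_one_add_X]
    have h8 : s ≤ H.natDegree := by omega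
    nlinarith

end Pool.Agent.H618.LP
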