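import Pool.Agent.H618.LP.Big

/-! # Many divergent trajectories -/

set_option autoImplicit false

namespace Pool.Agent.H618.LP

open Polynomial

variable {F : Type*} [Field F] [Finite F] {d : F[X]}

theorem finite_res (d : F[X]) : {a : F[X] | a.degree < d.degree}.Finite := by
  refine (finite_deg (F := F) d.natDegree).subset ?_
  intro a ha
  rw [Set.mem_ofPred_eq] at ha ⊢
  exact natDegree_le_natDegree ha.le

open Classical in
/-- the nonzero residues -/
noncomputable def Rs (d : F[X]) : Finset F[X] := (finite_res d).toFinset.erase 0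

open Classical in
theorem mem_Rs {a : F[X]} : a ∈ Rs d ↔ a ≠ 0 ∧ a.degree < d.degree := by
  unfold Rs
  rw [Finset.mem_erase, Set.Finite.mem_toFinset, Set.mem_ofPred_eq]

open Classical in
theorem card_Rs (hd0 : d ≠ 0) : (Rs d).card = Nat.card (Cls d) - 1 := by
  unfold Rs
  rw [Finset.card_erase_of_mem]
  · congr 1
    have h1 : (finite_res d).toFinset.card = Nat.card {a : F[X] | a.degree < d.degree} := by
      rw [Nat.card_coe_set_eq, Set.ncard_eq_toFinset_card _ (finite_res d)]
    rw [h1]
    have e : {a : F[X] | a.degree < d.degree} ≃ Cls d := by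
      refine Equiv.ofBijective (fun a => cl d a.1) ⟨?_, ?_⟩
      · rintro ⟨a, ha⟩ ⟨b, hb⟩ hab
        rw [Set.mem_ofPred_eq] at ha hb
        simp only at hab
        rw [cl_eq] at hab
        have h2 : a - b = 0 := by
          by_contra h3
          have h4 := degree_le_of_dvd hab h3
          have h5 := lt_of_le_of_lt (degree_sub_le a b) (max_lt ha hb)
          exact absurd h5 (not_lt.2 h4)
        exact Subtype.ext (sub_eq_zero.1 h2)
      · intro c
        obtain ⟨f, rfl⟩ := Ideal.Quotient.mk_surjective c
        refine ⟨⟨f % d, EuclideanDomain.mod_lt f hd0⟩, ?_⟩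
        simp only
        rw [cl_eq]
        refine ⟨-(f / d), ?_⟩
        have := EuclideanDomain.div_add_mod f d
        linear_combination this
    exact Nat.card_congr e
  · rw [Set.Finite.mem_toFinset, Set.mem_ofPred_eq, degree_zero]
    exact bot_lt_iff_ne_bot.2 (fun h => hd0 (degree_eq_bot.1 h))

open Classical in
/-- the polynomials with `n` nonzero digits to base `d`, followed by the digits of `d ^ 3` -/
noncomputable def An (d : F[X]) : ℕ → Finset F[X]
  | 0 => {d ^ 3}
  | n + 1 => Finset.image₂ (fun a g => a + d * g) (Rs d) (An d n)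

theorem card_An (hd0 : d ≠ 0) (n : ℕ) : (An d n).card = (Nat.card (Cls d) - 1) ^ n := by
  classical
  induction n with
  | zero => simp [An]
  | succ n ih =>
    unfold An
    rw [Finset.card_image₂_iff.2]
    · rw [ih, card_Rs hd0, pow_succ, mul_comm]
    · intro p hp q hq h
      obtain ⟨a, g⟩ := p
      obtain ⟨b, k⟩ := q
      rw [Set.mem_prod, Finset.mem_coe, Finset.mem_coe, mem_Rs] at hp hq
      change a + d * g = b + d * k at h
      have h1 : d ∣ a - b := ⟨k - g, by linear_combination h⟩
      have h2 : a - b = 0 := by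
        by_contra h3
        have h4 := degree_le_of_dvd h1 h3
        have h5 := lt_of_le_of_lt (degree_sub_le a b) (max_lt hp.1.2 hq.1.2)
        exact absurd h5 (not_lt.2 h4)
      have h3 : a = b := sub_eq_zero.1 h2
      have h4 : g = k := by
        rw [h3] at h
        exact mul_left_cancel₀ hd0 (add_left_cancel h)
      rw [h3, h4]

theorem An_prop (hd : 0 < d.natDegree) (n : ℕ) : ∀ f ∈ An d n, f.natDegree = (n + 3) * d.natDegree ∧
    (big d).T^[n] f = d ^ 3 := by
  classical
  have hd0 : d ≠ 0 := by rintro rfl; simp at hd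
  induction n with
  | zero =>
    intro f hf
    simp only [An, Finset.mem_singleton] at hf
    rw [hf, natDegree_pow]
    exact ⟨by ring, rfl⟩
  | succ n ih =>
    intro f hf
    simp only [An, Finset.mem_image₂, mem_Rs] at hf
    obtain ⟨a, ⟨ha, had⟩, g, hg, rfl⟩ := hf
    obtain ⟨h1, h2⟩ := ih g hg
    constructor
    · have hg0 : g ≠ 0 := by
        rintro rfl
        rw [natDegree_zero] at h1
        have : 0 < (n + 3) * d.natDegree := Nat.mul_pos (by omega) hd
        omega
      have h3 : (d * g).natDegree = (n + 1 + 3) * d.natDegree := by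
        rw [natDegree_mul hd0 hg0, h1]
        ring
      rw [natDegree_add_eq_right_of_natDegree_lt, h3]
      rw [h3]
      have h4 : a.natDegree < d.natDegree := natDegree_lt_natDegree ha had
      nlinarith
    · rw [Function.iterate_succ_apply, big_add hd0 ha had, h2]

/-- there are many polynomials with divergent trajectories -/
theorem count (hd : 0 < d.natDegree) (n : ℕ) : (Nat.card (Cls d) - 1) ^ n ≤
    Set.ncard {f : F[X] | f.natDegree = (n + 3) * d.natDegree ∧
      ∀ t, t * d.natDegree ≤ ((big d).T^[n + t] f).natDegree} := by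
  have hd0 : d ≠ 0 := by rintro rfl; simp at hd
  rw [← card_An hd0, ← Set.ncard_coe_finset]
  apply Set.ncard_le_ncard
  · intro f hf
    obtain ⟨h1, h2⟩ := An_prop hd n f hf
    refine ⟨h1, fun t => ?_⟩
    rw [add_comm, Function.iterate_add_apply, h2]
    exact traj_growth hd t
  · refine (finite_deg (F := F) ((n + 3) * d.natDegree)).subset ?_
    intro f hf
    exact hf.1.le

omit [Finite F] in
/-- a trajectory whose degrees are unbounded is not eventually periodic -/
theorem not_cycles (hd : 0 < d.natDegree) : ¬ (big d).Cycles (d ^ 3) := by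
  intro h
  obtain ⟨N, hN⟩ := bdd_of_cycles _ _ h
  have h1 := traj_growth hd (N + 1)
  have h2 := hN (N + 1)
  nlinarith

end Pool.Agent.H618.LP
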