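import Mathlib

/-! # Generalised Collatz maps on the polynomials over a finite field: definitions, modulus of norm two -/

set_option autoImplicit false

namespace Pool.Agent.H618.LP

open Polynomial

variable {F : Type*} [Field F]

/-- the residue classes modulo `d` -/
abbrev Cls (d : F[X]) : Type _ := F[X] ⧸ Ideal.span {d}

/-- the residue class of `f` -/
noncomputable abbrev cl (d f : F[X]) : Cls d := Ideal.Quotient.mk (Ideal.span {d}) f

/-- A generalised Collatz map of coprime type modulo `d`: a multiplier `m c` prime to `d` and a polynomial `r c` for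
each class `c`, such that `m c * f - r c` is divisible by `d` for the `f` in `c`. -/
structure GMap (d : F[X]) where
  m : Cls d → F[X]
  r : Cls d → F[X]
  coprime : ∀ c, IsCoprime (m c) d
  dvd : ∀ f, d ∣ m (cl d f) * f - r (cl d f)

/-- the map: `(m c * f - r c) / d` for `f` in the class `c` -/
noncomputable def GMap.T {d : F[X]} (M : GMap d) (f : F[X]) : F[X] :=
  (M.m (cl d f) * f - M.r (cl d f)) / d

/-- `∏ |m c / d| < 1`, where `|f| = (card F) ^ deg f` -/
def GMap.Contracting {d : F[X]} (M : GMap d) : Prop :=
  ∑ᶠ c, (M.m c).natDegree < Nat.card (Cls d) * d.natDegree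

/-- the trajectory of `f` is eventually periodic -/
def GMap.Cycles {d : F[X]} (M : GMap d) (f : F[X]) : Prop := ∃ i j : ℕ, i < j ∧ M.T^[i] f = M.T^[j] f

section

variable {d : F[X]}

theorem cl_eq_zero {f : F[X]} : cl d f = 0 ↔ d ∣ f := by
  rw [Ideal.Quotient.eq_zero_iff_mem, Ideal.mem_span_singleton]

theorem cl_eq {f g : F[X]} : cl d f = cl d g ↔ d ∣ f - g := by
  rw [Ideal.Quotient.mk_eq_mk_iff_sub_mem, Ideal.mem_span_singleton]

theorem T_mul (hd : d ≠ 0) (M : GMap d) (f : F[X]) : d * M.T f = M.m (cl d f) * f - M.r (cl d f) := by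
  unfold GMap.T
  exact EuclideanDomain.mul_div_cancel' hd (M.dvd f)

theorem T_eq (hd : d ≠ 0) (M : GMap d) {f g : F[X]} (h : d * g = M.m (cl d f) * f - M.r (cl d f)) : M.T f = g :=
  mul_left_cancel₀ hd ((T_mul hd M f).trans h.symm)

theorem card_cls (hd : d ≠ 0) : Nat.card (Cls d) = Nat.card F ^ d.natDegree := by
  let pb := AdjoinRoot.powerBasis hd
  have h1 : Module.Finite F (AdjoinRoot d) := pb.finite
  have h2 : Module.finrank F (AdjoinRoot d) = d.natDegree := by
    rw [pb.finrank, AdjoinRoot.powerBasis_dim]
  have h3 : Nat.card (AdjoinRoot d) = Nat.card F ^ Module.finrank F (AdjoinRoot d) := Module.natCard_eq_pow_finrank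
  rw [h2] at h3
  exact h3

theorem finite_cls [Finite F] (hd : d ≠ 0) : Finite (Cls d) := by
  let pb := AdjoinRoot.powerBasis hd
  have h1 : Module.Finite F (AdjoinRoot d) := pb.finite
  have h2 : Finite (AdjoinRoot d) := Module.finite_of_finite F
  exact h2

theorem finite_deg [Finite F] (N : ℕ) : {f : F[X] | f.natDegree ≤ N}.Finite := by
  have h1 : Finite (degreeLT F (N + 1)) := Finite.of_equiv _ (degreeLTEquiv F (N + 1)).symm.toEquiv
  refine Set.Finite.subset (Set.toFinite (degreeLT F (N + 1) : Set F[X])) ?_
  intro f hf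
  rw [Set.mem_ofPred_eq] at hf
  rw [SetLike.mem_coe, mem_degreeLT]
  exact lt_of_le_of_lt degree_le_natDegree (by exact_mod_cast Nat.lt_succ_of_le hf)

/-- a bounded trajectory is eventually periodic -/
theorem cycles_of_bdd [Finite F] (M : GMap d) (f : F[X]) (N : ℕ) (h : ∀ n, (M.T^[n] f).natDegree ≤ N) : M.Cycles f := by
  have h1 := finite_deg (F := F) N
  have h2 : ¬ Function.Injective (fun n : ℕ => M.T^[n] f) := by
    intro hinj
    have h3 : (Set.range (fun n : ℕ => M.T^[n] f)).Finite := by
      refine h1.subset ?_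
      rintro _ ⟨n, rfl⟩
      exact h n
    exact Set.infinite_range_of_injective hinj h3
  rw [Function.not_injective_iff] at h2
  obtain ⟨i, j, h3, h4⟩ := h2
  rcases lt_or_gt_of_ne h4 with h5 | h5
  · exact ⟨i, j, h5, h3⟩
  · exact ⟨j, i, h5, h3.symm⟩

/-- an eventually periodic trajectory is bounded -/
theorem bdd_of_cycles (M : GMap d) (f : F[X]) (h : M.Cycles f) : ∃ N : ℕ, ∀ n, (M.T^[n] f).natDegree ≤ N := by
  obtain ⟨i, j, hij, he⟩ := h
  refine ⟨(Finset.range j).sup fun n => (M.T^[n] f).natDegree, ?_⟩
  intro n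
  induction n using Nat.strong_induction_on with
  | _ n ih =>
    by_cases hn : n < j
    · exact Finset.le_sup (f := fun n => (M.T^[n] f).natDegree) (Finset.mem_range.2 hn)
    · have h1 : M.T^[n] f = M.T^[n - j + i] f := by
        have e1 : n = (n - j) + j := by omega
        conv_lhs => rw [e1]
        rw [Function.iterate_add_apply, ← he, ← Function.iterate_add_apply]
      rw [h1]
      exact ih _ (by omega)

/-- If the norm of the modulus is two and the map is contracting, then all trajectories are eventually periodic. -/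
theorem norm_two [Finite F] (hd : 0 < d.natDegree) (h2 : Nat.card (Cls d) = 2) (M : GMap d) (hM : M.Contracting)
    (f : F[X]) : M.Cycles f := by
  have hd0 : d ≠ 0 := by
    rintro rfl
    simp at hd
  have hfin := finite_cls hd0
  let _ : Fintype (Cls d) := Fintype.ofFinite _
  have hc := card_cls hd0
  rw [h2] at hc
  have hd1 : d.natDegree = 1 := by
    have h3 : 2 ≤ Nat.card F := by
      have := Finite.one_lt_card (α := F)
      omega
    by_contra hne
    have h4 : 2 ≤ d.natDegree := by omega
    have h5 : 2 ^ 2 ≤ Nat.card F ^ d.natDegree :=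
      (Nat.pow_le_pow_left h3 2).trans (Nat.pow_le_pow_right (by omega) h4)
    omega
  have hm : ∀ c, (M.m c).natDegree ≤ 1 := by
    intro c
    unfold GMap.Contracting at hM
    rw [h2, hd1, finsum_eq_sum_of_fintype] at hM
    have h3 : (M.m c).natDegree ≤ ∑ c, (M.m c).natDegree :=
      Finset.single_le_sum (f := fun c => (M.m c).natDegree) (fun i _ => Nat.zero_le _) (Finset.mem_univ c)
    omega
  set B : ℕ := Finset.univ.sup fun c => (M.r c).natDegree with hB
  have hr : ∀ c, (M.r c).natDegree ≤ B := fun c =>
    Finset.le_sup (f := fun c => (M.r c).natDegree) (Finset.mem_univ c)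
  have hstep : ∀ g, (M.T g).natDegree ≤ max g.natDegree B := by
    intro g
    by_cases h0 : M.T g = 0
    · rw [h0]; simp
    have h3 := congrArg natDegree (T_mul hd0 M g)
    rw [natDegree_mul hd0 h0, hd1] at h3
    have h4 : (M.m (cl d g) * g - M.r (cl d g)).natDegree ≤ max (1 + g.natDegree) B := by
      refine (natDegree_sub_le _ _).trans (max_le_max ?_ (hr _))
      exact natDegree_mul_le.trans (Nat.add_le_add_right (hm _) _)
    omega
  refine cycles_of_bdd M f (max f.natDegree B) ?_
  intro n
  induction n with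
  | zero => exact le_max_left _ _
  | succ n ih =>
    rw [Function.iterate_succ_apply']
    refine (hstep _).trans ?_
    omega

end

end Pool.Agent.H618.LP
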