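import Pool.Agent.H618.LP.Def

/-! # Moduli of norm three: a contracting map with a divergent trajectory -/

set_option autoImplicit false

namespace Pool.Agent.H618.LP

open Polynomial

variable {F : Type*} [Field F] {d : F[X]}

theorem classes [Finite F] (hd : 0 < d.natDegree) (h3 : Nat.card (Cls d) = 3) (c : Cls d) :
    (c = 0 ∨ c = 1 ∨ c = -1) ∧ (1 : Cls d) ≠ 0 ∧ (-1 : Cls d) ≠ 0 ∧ (-1 : Cls d) ≠ 1 := by
  classical
  have hd0 : d ≠ 0 := by rintro rfl; simp at hd
  have hfin := finite_cls hd0
  let _ : Fintype (Cls d) := Fintype.ofFinite _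
  have hcard : Fintype.card (Cls d) = 3 := by rw [← Nat.card_eq_fintype_card, h3]
  have h1 : (1 : Cls d) ≠ 0 := by
    intro h
    have h4 : cl d (1 : F[X]) = 0 := h
    rw [cl_eq_zero] at h4
    have h5 := natDegree_le_of_dvd h4 one_ne_zero
    rw [natDegree_one] at h5
    omega
  have h30 : (3 : Cls d) = 0 := by
    have h4 := Nat.cast_card_eq_zero (Cls d)
    rw [hcard] at h4
    exact_mod_cast h4
  have h2 : (-1 : Cls d) ≠ 0 := neg_ne_zero.2 h1
  have h4 : (-1 : Cls d) ≠ 1 := by
    intro h
    apply h1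
    have h5 : (1 : Cls d) + 1 = 0 := by
      nth_rewrite 1 [← h]
      exact neg_add_cancel 1
    have h6 : (3 : Cls d) = 1 + (1 + 1) := by norm_num
    rw [h5, add_zero] at h6
    rw [← h6, h30]
  refine ⟨?_, h1, h2, h4⟩
  have h5 : ({0, 1, -1} : Finset (Cls d)) = Finset.univ := by
    apply Finset.eq_univ_of_card
    rw [hcard, Finset.card_insert_of_notMem, Finset.card_insert_of_notMem, Finset.card_singleton]
    · rw [Finset.mem_singleton]; exact h4.symm
    · rw [Finset.mem_insert, Finset.mem_singleton, not_or]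
      exact ⟨h1.symm, h2.symm⟩
  have h6 := Finset.mem_univ c
  rw [← h5] at h6
  simpa using h6

open Classical in
/-- The map `f ↦ c + m_c (f - c) / d` for `f ≡ c`, where `c = 0, 1, -1` and `m_0 = 1 + d + d ^ 2`, `m_1 = 1`, `m_{-1} = -1`. -/
noncomputable def tri [Finite F] (hd : 0 < d.natDegree) (h3 : Nat.card (Cls d) = 3) : GMap d where
  m c := if c = 0 then 1 + d + d ^ 2 else if c = 1 then 1 else -1
  r c := if c = 0 then 0 else if c = 1 then 1 - d else 1 + d
  coprime c := by
    split_ifs
    · exact ⟨1, -(1 + d), by ring⟩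
    · exact isCoprime_one_left
    · exact ⟨-1, 0, by ring⟩
  dvd f := by
    obtain ⟨h, h1, h2, h4⟩ := classes hd h3 (cl d f)
    rcases h with h | h | h
    · rw [if_pos h, if_pos h, sub_zero]
      exact dvd_mul_of_dvd_right (cl_eq_zero.1 h) _
    · rw [h, if_neg h1, if_pos rfl, if_neg h1, if_pos rfl]
      have h5 : cl d f = cl d 1 := h
      rw [cl_eq] at h5
      obtain ⟨g, hg⟩ := h5
      exact ⟨g + 1, by linear_combination hg⟩
    · rw [h, if_neg h2, if_neg h4, if_neg h2, if_neg h4]
      have h5 : cl d f = cl d (-1) := by rw [h]; rfl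
      rw [cl_eq] at h5
      obtain ⟨g, hg⟩ := h5
      exact ⟨-g - 1, by linear_combination -hg⟩

section

variable [Finite F] (hd : 0 < d.natDegree) (h3 : Nat.card (Cls d) = 3)

include hd

theorem tri_zero (Q : F[X]) : (tri hd h3).T (d * Q) = (1 + d + d ^ 2) * Q := by
  have hd0 : d ≠ 0 := by rintro rfl; simp at hd
  apply T_eq hd0
  have h1 : cl d (d * Q) = 0 := cl_eq_zero.2 (dvd_mul_right _ _)
  simp only [tri]
  rw [if_pos h1, if_pos h1]
  ring

theorem tri_one (Q : F[X]) : (tri hd h3).T (1 + d * Q) = 1 + Q := by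
  have hd0 : d ≠ 0 := by rintro rfl; simp at hd
  apply T_eq hd0
  have h1 : cl d (1 + d * Q) = 1 := by
    have h2 : cl d (1 + d * Q) = cl d 1 := by rw [cl_eq]; exact ⟨Q, by ring⟩
    rw [h2]; rfl
  obtain ⟨-, h2, -, -⟩ := classes hd h3 0
  simp only [tri]
  rw [h1, if_neg h2, if_pos rfl, if_neg h2, if_pos rfl]
  ring

theorem tri_neg (Q : F[X]) : (tri hd h3).T (-1 + d * Q) = -1 - Q := by
  have hd0 : d ≠ 0 := by rintro rfl; simp at hd
  apply T_eq hd0
  have h1 : cl d (-1 + d * Q) = -1 := by
    have h2 : cl d (-1 + d * Q) = cl d (-1) := by rw [cl_eq]; exact ⟨Q, by ring⟩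
    rw [h2]; rfl
  obtain ⟨-, -, h2, h4⟩ := classes hd h3 0
  simp only [tri]
  rw [h1, if_neg h2, if_neg h4, if_neg h2, if_neg h4]
  ring

theorem tri_contracting : (tri hd h3).Contracting := by
  unfold GMap.Contracting
  obtain ⟨-, h1, -, -⟩ := classes hd h3 0
  rw [finsum_eq_single _ (0 : Cls d), h3]
  · simp only [tri, if_true]
    have h2 : (1 + d + d ^ 2).natDegree = 2 * d.natDegree := by
      rw [natDegree_add_eq_right_of_natDegree_lt, natDegree_pow]
      rw [natDegree_pow]
      have := natDegree_add_le (1 : F[X]) d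
      rw [natDegree_one] at this
      omega
    rw [h2]
    omega
  · intro c hc
    simp only [tri]
    rw [if_neg hc]
    split_ifs
    · exact natDegree_one
    · rw [natDegree_neg, natDegree_one]

include h3 in
theorem charThree : CharP F 3 := by
  have hd0 : d ≠ 0 := by rintro rfl; simp at hd
  let _ : Fintype F := Fintype.ofFinite _
  have hc := card_cls hd0
  rw [h3] at hc
  have h1 : Nat.card F ∣ 3 := by
    rw [hc]
    exact dvd_pow_self _ hd.ne'
  have h2 : Nat.card F = 3 := by
    rcases (Nat.dvd_prime Nat.prime_three).1 h1 with h | h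
    · have := Finite.one_lt_card (α := F)
      omega
    · exact h
  have : Fact (Nat.Prime 3) := ⟨Nat.prime_three⟩
  exact charP_of_card_eq_prime (by rw [← Nat.card_eq_fintype_card, h2])

/-- the map commutes with cubing, up to the time scale -/
theorem cube_step (P : F[X]) : (tri hd h3).T^[3] (P ^ 3) = ((tri hd h3).T P) ^ 3 := by
  have hch : CharP F 3 := charThree hd h3
  have : Fact (Nat.Prime 3) := ⟨Nat.prime_three⟩
  have hcube : ∀ a b : F[X], (a + b) ^ 3 = a ^ 3 + b ^ 3 := fun a b => add_pow_char a b 3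
  obtain ⟨h, -, -, -⟩ := classes hd h3 (cl d P)
  have e3 : ∀ f, (tri hd h3).T^[3] f = (tri hd h3).T ((tri hd h3).T ((tri hd h3).T f)) := fun f => rfl
  rcases h with h | h | h
  · rw [cl_eq_zero] at h
    obtain ⟨Q, rfl⟩ := h
    have e : (d * Q) ^ 3 = d * (d ^ 2 * Q ^ 3) := by ring
    rw [e3, e, tri_zero hd h3]
    have e : (1 + d + d ^ 2) * (d ^ 2 * Q ^ 3) = d * ((1 + d + d ^ 2) * (d * Q ^ 3)) := by ring
    rw [e, tri_zero hd h3]
    have e : (1 + d + d ^ 2) * ((1 + d + d ^ 2) * (d * Q ^ 3)) = d * ((1 + d + d ^ 2) ^ 2 * Q ^ 3) := by ring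
    rw [e, tri_zero hd h3, tri_zero hd h3]
    ring
  · have h5 : cl d P = cl d 1 := h
    rw [cl_eq] at h5
    obtain ⟨Q, hQ⟩ := h5
    have hP : P = 1 + d * Q := by linear_combination hQ
    rw [hP, tri_one hd h3, hcube, hcube]
    have e : (1 : F[X]) ^ 3 + (d * Q) ^ 3 = 1 + d * (d * (d * Q ^ 3)) := by ring
    rw [e3, e, tri_one hd h3, tri_one hd h3, tri_one hd h3]
    ring
  · have h5 : cl d P = cl d (-1) := by rw [h]; rfl
    rw [cl_eq] at h5
    obtain ⟨Q, hQ⟩ := h5
    have hP : P = -1 + d * Q := by linear_combination hQ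
    have e0 : (-1 : F[X]) - Q = -1 + -Q := by ring
    rw [hP, tri_neg hd h3, e0, hcube, hcube]
    have e : (-1 : F[X]) ^ 3 + (d * Q) ^ 3 = -1 + d * (d * (d * Q ^ 3)) := by ring
    rw [e3, e, tri_neg hd h3]
    have e : (-1 : F[X]) - d * (d * Q ^ 3) = -1 + d * (-(d * Q ^ 3)) := by ring
    rw [e, tri_neg hd h3]
    have e : (-1 : F[X]) - -(d * Q ^ 3) = -1 + d * Q ^ 3 := by ring
    rw [e, tri_neg hd h3]
    ring

theorem cube_iter (P : F[X]) (s : ℕ) : (tri hd h3).T^[3 * s] (P ^ 3) = ((tri hd h3).T^[s] P) ^ 3 := by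
  induction s with
  | zero => rfl
  | succ s ih =>
    have e : 3 * (s + 1) = 3 + 3 * s := by ring
    rw [e, Function.iterate_add_apply, ih, cube_step hd h3, Function.iterate_succ_apply']

theorem cube_iter' (P : F[X]) (n s : ℕ) : (tri hd h3).T^[3 ^ n * s] (P ^ 3 ^ n) = ((tri hd h3).T^[s] P) ^ 3 ^ n := by
  induction n generalizing s with
  | zero => simp
  | succ n ih =>
    have e1 : 3 ^ (n + 1) * s = 3 * (3 ^ n * s) := by ring
    have e2 : P ^ 3 ^ (n + 1) = (P ^ 3 ^ n) ^ 3 := by rw [← pow_mul, pow_succ]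
    rw [e1, e2, cube_iter hd h3, ih, ← pow_mul, ← pow_succ]

/-- a renormalisation fixed point gives a divergent trajectory -/
theorem diverges_of_cube (P : F[X]) (hP : 0 < P.natDegree) (s : ℕ) (h : (tri hd h3).T^[s] P = P ^ 3) :
    ¬ (tri hd h3).Cycles P := by
  intro hcy
  obtain ⟨N, hN⟩ := bdd_of_cycles _ _ hcy
  have key : ∀ n : ℕ, ∃ k : ℕ, (tri hd h3).T^[k] P = P ^ 3 ^ n := by
    intro n
    induction n with
    | zero => exact ⟨0, by simp⟩
    | succ n ih =>
      obtain ⟨k, hk⟩ := ih
      refine ⟨3 ^ n * s + k, ?_⟩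
      rw [Function.iterate_add_apply, hk, cube_iter' hd h3, h, ← pow_mul, pow_succ, mul_comm]
  obtain ⟨k, hk⟩ := key N
  have h1 := hN k
  rw [hk, natDegree_pow] at h1
  have h2 : N < 3 ^ N := Nat.lt_pow_self (by norm_num)
  nlinarith

end

/-! ### lists of digits -/

/-- sum of lists -/
def addL : List (ZMod 3) → List (ZMod 3) → List (ZMod 3)
  | [], b => b
  | a, [] => a
  | x :: a, y :: b => (x + y) :: addL a b

/-- the map on lists -/
def stepL : List (ZMod 3) → List (ZMod 3)
  | [] => []
  | a :: l => addL [a] (if a = 0 then addL l (0 :: addL l (0 :: l)) else if a = 1 then l else l.map (fun x => 2 * x))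

/-- the cube of a list -/
def spread : List (ZMod 3) → List (ZMod 3)
  | [] => []
  | a :: l => a :: 0 :: 0 :: spread l

/-- the starting polynomial -/
def start : List (ZMod 3) := [1, 1, 1, 1, 2, 2, 2, 2, 2, 2, 2, 2, 2]

theorem loop : stepL^[82] start ++ [0, 0] = spread start := by decide +kernel

theorem zmod_cube (a : ZMod 3) : a ^ 3 = a := by
  revert a
  decide

theorem zmod_cases (a : ZMod 3) : a = 0 ∨ a = 1 ∨ a = -1 := by
  revert a
  decide

section eval

variable [CharP F 3]

/-- the polynomial in `d` with the coefficients in a list -/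
noncomputable def ev (d : F[X]) : List (ZMod 3) → F[X]
  | [] => 0
  | a :: l => C (ZMod.castHom (dvd_refl 3) F a) + d * ev d l

theorem ev_addL : ∀ a b : List (ZMod 3), ev d (addL a b) = ev d a + ev d b
  | [], b => by simp [addL, ev]
  | x :: a, [] => by simp [addL, ev]
  | x :: a, y :: b => by
    simp only [addL, ev]
    rw [ev_addL a b, map_add, map_add]
    ring

theorem ev_two : ∀ l : List (ZMod 3), ev d (l.map (fun x => 2 * x)) = -ev d l
  | [] => by simp [ev]
  | a :: l => by
    simp only [List.map_cons, ev]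
    rw [ev_two l]
    have h : (2 : ZMod 3) * a = -a := by
      revert a
      decide
    rw [h, map_neg, map_neg]
    ring

theorem ev_append_zero : ∀ l : List (ZMod 3), ev d (l ++ [0, 0]) = ev d l
  | [] => by simp [ev]
  | a :: l => by
    simp only [List.cons_append, ev]
    rw [ev_append_zero l]

theorem ev_spread : ∀ l : List (ZMod 3), ev d (spread l) = ev d l ^ 3
  | [] => by simp [ev, spread]
  | a :: l => by
    have : Fact (Nat.Prime 3) := ⟨Nat.prime_three⟩
    have hcube : ∀ a b : F[X], (a + b) ^ 3 = a ^ 3 + b ^ 3 := fun a b => add_pow_char a b 3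
    simp only [spread, ev]
    rw [ev_spread l, hcube, ← map_pow, ← map_pow]
    rw [zmod_cube, map_zero, map_zero]
    ring

variable [Finite F] (hd : 0 < d.natDegree) (h3 : Nat.card (Cls d) = 3)

theorem ev_stepL (l : List (ZMod 3)) : ev d (stepL l) = (tri hd h3).T (ev d l) := by
  cases l with
  | nil =>
    have := tri_zero hd h3 0
    simp only [stepL, ev]
    rw [mul_zero, mul_zero] at this
    exact this.symm
  | cons a l =>
    simp only [stepL]
    rw [ev_addL]
    have h1 : ev d [a] = C (ZMod.castHom (dvd_refl 3) F a) := by simp [ev]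
    rw [h1]
    rcases zmod_cases a with rfl | rfl | rfl
    · rw [if_pos rfl, ev_addL]
      simp only [ev]
      rw [ev_addL]
      simp only [ev]
      simp only [map_zero, zero_add]
      rw [tri_zero hd h3]
      ring
    · rw [if_neg (by decide), if_pos rfl]
      simp only [ev]
      rw [map_one, map_one, tri_one hd h3]
    · rw [if_neg (by decide), if_neg (by decide), ev_two]
      simp only [ev]
      rw [map_neg, map_neg, map_one, map_one, tri_neg hd h3]
      ring

theorem ev_iter (n : ℕ) (l : List (ZMod 3)) : ev d (stepL^[n] l) = (tri hd h3).T^[n] (ev d l) := by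
  induction n with
  | zero => rfl
  | succ n ih => rw [Function.iterate_succ_apply', Function.iterate_succ_apply', ev_stepL hd h3, ih]

include hd in
omit [Finite F] in
theorem ev_start_natDegree : 0 < (ev d start).natDegree := by
  have h1 : ∀ l : List (ZMod 3), ∀ a : ZMod 3, a ≠ 0 → (ev d (l ++ [a])).natDegree = l.length * d.natDegree ∧
      ev d (l ++ [a]) ≠ 0 := by
    intro l a ha
    have hd0 : d ≠ 0 := by rintro rfl; simp at hd
    have hca : ZMod.castHom (dvd_refl 3) F a ≠ 0 := by
      intro h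
      have : Fact (Nat.Prime 3) := ⟨Nat.prime_three⟩
      exact ha ((ZMod.castHom (dvd_refl 3) F).injective (by rw [h, map_zero]))
    induction l with
    | nil =>
      simp only [List.nil_append, ev, mul_zero, add_zero, List.length_nil, zero_mul]
      exact ⟨natDegree_C _, C_ne_zero.2 hca⟩
    | cons b l ih =>
      obtain ⟨h2, h3⟩ := ih
      simp only [List.cons_append, ev, List.length_cons]
      have h4 : (d * ev d (l ++ [a])).natDegree = (l.length + 1) * d.natDegree := by
        rw [natDegree_mul hd0 h3, h2]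
        ring
      have h5 : (C (ZMod.castHom (dvd_refl 3) F b) + d * ev d (l ++ [a])).natDegree = (l.length + 1) * d.natDegree := by
        rw [natDegree_add_eq_right_of_natDegree_lt, h4]
        rw [h4, natDegree_C]
        exact Nat.mul_pos (Nat.succ_pos _) hd
      refine ⟨h5, ?_⟩
      intro h6
      rw [h6, natDegree_zero] at h5
      have : 0 < (l.length + 1) * d.natDegree := Nat.mul_pos (Nat.succ_pos _) hd
      omega
  have h2 := (h1 [1, 1, 1, 1, 2, 2, 2, 2, 2, 2, 2, 2] 2 (by decide)).1
  have h3 : start = [1, 1, 1, 1, 2, 2, 2, 2, 2, 2, 2, 2] ++ [2] := rfl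
  rw [h3, h2]
  exact Nat.mul_pos (by simp) hd

end eval

/-- a divergent trajectory of a contracting map, for a modulus of norm three -/
theorem norm_three [Finite F] (hd : 0 < d.natDegree) (h3 : Nat.card (Cls d) = 3) :
    ∃ f : F[X], ¬ (tri hd h3).Cycles f := by
  have hch : CharP F 3 := charThree hd h3
  refine ⟨ev d start, diverges_of_cube hd h3 _ (ev_start_natDegree hd) 82 ?_⟩
  rw [← ev_iter hd h3, ← ev_append_zero, loop, ev_spread]

end Pool.Agent.H618.LP
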